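import Pool.Agent.KS6_21.PP.Prod

set_option autoImplicit false

/-! The Heisenberg groups over a commutative ring. -/

namespace Pool.Agent.KS6_21.PP

open Nat

/-- The Heisenberg group over the commutative ring `R` with the index set `I`: the triples
`(p, q, t)` with `p`, `q` finitely supported functions from `I` to `R` and `t` in `R`, with the
multiplication `(p, q, t) (p', q', t') = (p + p', q + q', t + t' + ∑ i, p i * q' i)`. -/
@[ext] structure Heis (I R : Type) [CommRing R] where
  p : I →₀ R
  q : I →₀ R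
  t : R

variable {I R : Type} [CommRing R]

/-- The sum of the products `p i * q i`. -/
def dot (p q : I →₀ R) : R := p.sum fun i a => a * q i

@[simp] theorem dot_zero_left (q : I →₀ R) : dot 0 q = 0 := Finsupp.sum_zero_index

@[simp] theorem dot_zero_right (p : I →₀ R) : dot p 0 = 0 := by simp [dot]

theorem dot_add_left (p p' q : I →₀ R) : dot (p + p') q = dot p q + dot p' q := by
  classical
  exact Finsupp.sum_add_index' (fun _ => zero_mul _) (fun _ _ _ => add_mul _ _ _)

theorem dot_add_right (p q q' : I →₀ R) : dot p (q + q') = dot p q + dot p q' := by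
  simp [dot, mul_add, Finsupp.sum_add]

theorem dot_neg_left (p q : I →₀ R) : dot (-p) q = -dot p q := by
  have := dot_add_left p (-p) q
  rw [add_neg_cancel, dot_zero_left] at this
  exact (neg_eq_of_add_eq_zero_right this.symm).symm

theorem dot_neg_right (p q : I →₀ R) : dot p (-q) = -dot p q := by
  have := dot_add_right p q (-q)
  rw [add_neg_cancel, dot_zero_right] at this
  exact (neg_eq_of_add_eq_zero_right this.symm).symm

theorem dot_single (i : I) (q : I →₀ R) : dot (Finsupp.single i 1) q = q i := by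
  simp [dot]

namespace Heis

noncomputable instance : Mul (Heis I R) := ⟨fun x y => ⟨x.p + y.p, x.q + y.q, x.t + y.t + dot x.p y.q⟩⟩
instance : One (Heis I R) := ⟨⟨0, 0, 0⟩⟩
noncomputable instance : Inv (Heis I R) := ⟨fun x => ⟨-x.p, -x.q, -x.t + dot x.p x.q⟩⟩

@[simp] theorem mul_p (x y : Heis I R) : (x * y).p = x.p + y.p := rfl
@[simp] theorem mul_q (x y : Heis I R) : (x * y).q = x.q + y.q := rfl
@[simp] theorem mul_t (x y : Heis I R) : (x * y).t = x.t + y.t + dot x.p y.q := rfl
@[simp] theorem one_p : (1 : Heis I R).p = 0 := rfl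
@[simp] theorem one_q : (1 : Heis I R).q = 0 := rfl
@[simp] theorem one_t : (1 : Heis I R).t = 0 := rfl
@[simp] theorem inv_p (x : Heis I R) : x⁻¹.p = -x.p := rfl
@[simp] theorem inv_q (x : Heis I R) : x⁻¹.q = -x.q := rfl
@[simp] theorem inv_t (x : Heis I R) : x⁻¹.t = -x.t + dot x.p x.q := rfl

noncomputable instance : Group (Heis I R) := Group.ofLeftAxioms
  (fun x y z => by
    ext
    · simp [add_assoc]
    · simp [add_assoc]
    · simp only [mul_t, mul_p, mul_q, dot_add_left, dot_add_right]
      ring)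
  (fun x => by ext <;> simp)
  (fun x => by
    ext
    · simp
    · simp
    · simp only [mul_t, inv_t, inv_p, dot_neg_left, one_t]
      ring)

/-- The elements `(0, 0, t)` are central. -/
theorem commute_of {x : Heis I R} (hp : x.p = 0) (hq : x.q = 0) (y : Heis I R) : Commute x y := by
  apply Heis.ext
  · simp [hp]
  · simp [hq]
  · simp [hp, hq, add_comm]

/-- The commutators are central. -/
theorem commute_commutator (x y z : Heis I R) : Commute (x * y * x⁻¹ * y⁻¹) z := by
  apply commute_of
  · simp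
  · simp

theorem pow_p (x : Heis I R) (m : ℕ) : (x ^ m).p = m • x.p := by
  induction m with
  | zero => simp
  | succ m ih => rw [pow_succ, mul_p, ih, succ_nsmul]

theorem pow_q (x : Heis I R) (m : ℕ) : (x ^ m).q = m • x.q := by
  induction m with
  | zero => simp
  | succ m ih => rw [pow_succ, mul_q, ih, succ_nsmul]

theorem pow_t {x : Heis I R} (hp : x.p = 0) (m : ℕ) : (x ^ m).t = m • x.t := by
  induction m with
  | zero => simp
  | succ m ih => rw [pow_succ, mul_t, ih, pow_p, hp, succ_nsmul]; simp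

instance [Countable I] [Countable R] : Countable (Heis I R) :=
  Function.Injective.countable (f := fun x : Heis I R => (x.p, x.q, x.t)) fun x y h => by
    simp only [Prod.mk.injEq] at h
    exact Heis.ext h.1 h.2.1 h.2.2

instance [Finite I] [Finite R] : Finite (Heis I R) := by
  have : Finite (I →₀ R) := Finite.of_injective (fun f : I →₀ R => (f : I → R)) DFunLike.coe_injective
  exact Finite.of_injective (fun x : Heis I R => (x.p, x.q, x.t)) fun x y h => by
    simp only [Prod.mk.injEq] at h
    exact Heis.ext h.1 h.2.1 h.2.2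

/-- The Heisenberg groups over the integers are torsion-free. -/
theorem torsion_free (x : Heis I ℤ) (m : ℕ) (hm : 0 < m) (h : x ^ m = 1) : x = 1 := by
  have hm' : m ≠ 0 := hm.ne'
  have hp : x.p = 0 := by
    have h1 : m • x.p = 0 := by rw [← pow_p, h]; rfl
    ext i
    have h2 := DFunLike.congr_fun h1 i
    simpa [hm'] using h2
  have hq : x.q = 0 := by
    have h1 : m • x.q = 0 := by rw [← pow_q, h]; rfl
    ext i
    have h2 := DFunLike.congr_fun h1 i
    simpa [hm'] using h2
  have ht : x.t = 0 := by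
    have h1 : m • x.t = 0 := by rw [← pow_t hp, h]; rfl
    simpa [hm'] using h1
  exact Heis.ext hp hq ht

/-- If `m = 0` in `R`, then `x ^ (m * m) = 1`. -/
theorem pow_sq (x : Heis I R) (m : ℕ) (h : (m : R) = 0) : x ^ (m * m) = 1 := by
  have h1 : ∀ r : R, m • r = 0 := fun r => by rw [nsmul_eq_mul, h, zero_mul]
  have hp : (x ^ m).p = 0 := by
    rw [pow_p]; ext i; exact h1 _
  have hq : (x ^ m).q = 0 := by
    rw [pow_q]; ext i; exact h1 _
  rw [pow_mul]
  apply Heis.ext
  · rw [pow_p, hp]; simp
  · rw [pow_q, hq]; simp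
  · rw [pow_t hp, h1]; rfl

theorem isPGroup {p a : ℕ} : IsPGroup p (Heis I (ZMod (p ^ a))) := by
  intro x
  refine ⟨a + a, ?_⟩
  rw [pow_add]
  exact pow_sq x _ (ZMod.natCast_self _)

/-- The central element `(0, 0, 1)`. -/
def cen : Heis I R := ⟨0, 0, 1⟩

theorem cen_commute (y : Heis I R) : Commute cen y := commute_of rfl rfl y

theorem cen_pow_p (m : ℕ) : ((cen : Heis I R) ^ m).p = 0 := by
  rw [pow_p]
  exact smul_zero _

theorem cen_pow_q (m : ℕ) : ((cen : Heis I R) ^ m).q = 0 := by
  rw [pow_q]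
  exact smul_zero _

theorem cen_pow_t (m : ℕ) : ((cen : Heis I R) ^ m).t = m := by
  rw [pow_t rfl]
  simp [cen]

/-- The main construction. -/
theorem exists_tuple {n : ℕ} (e : Fin n ↪ I) [Nontrivial R]
    (hR : ∀ a b : ℕ, a < n.factorial → b < n.factorial → (a : R) = b → a = b) {k : ℕ} (h1 : 1 ≤ k)
    (h2 : k ≤ n.factorial) : ∃ g : Fin n → Heis I R, Function.Injective g ∧
      (∃ x : Heis I R, P g = {y | ∃ j < k, y = x * cen ^ j}) ∧ (P g).ncard = k := by
  classical
  obtain ⟨w, hw⟩ := sums_eq n k h1 h2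
  let g : ℕ → Heis I R := fun i => if h : i < n then
    ⟨Finsupp.single (e ⟨i, h⟩) 1,
      ∑ l : Fin n, if i < l.val then Finsupp.single (e l) ((w l : ℕ) : R) else 0, 0⟩ else 1
  have hg : ∀ i : Fin n, g i = ⟨Finsupp.single (e i) 1,
      ∑ l : Fin n, if i < l then Finsupp.single (e l) ((w l : ℕ) : R) else 0, 0⟩ := fun i => by
    simp only [g, dif_pos i.2]
    rfl
  have hq : ∀ i j : Fin n, (g j).q (e i) = if j < i then ((w i : ℕ) : R) else 0 := by
    intro i j
    rw [hg j]
    simp only [Finsupp.finsetSum_apply]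
    rw [Finset.sum_eq_single i]
    · split_ifs with h
      · simp
      · rfl
    · intro l _ hl
      split_ifs with h
      · rw [Finsupp.single_apply, if_neg]
        exact fun h' => hl (e.injective h')
      · rfl
    · simp
  have hcomm : ∀ i < n, ∀ j < i, g i * g j = cen ^ w i * (g j * g i) := by
    intro i hi j hj
    have hj' : j < n := hj.trans hi
    have hij := hq ⟨i, hi⟩ ⟨j, hj'⟩
    have hji := hq ⟨j, hj'⟩ ⟨i, hi⟩
    rw [if_pos (show (⟨j, hj'⟩ : Fin n) < ⟨i, hi⟩ from hj)] at hij
    rw [if_neg (show ¬ (⟨i, hi⟩ : Fin n) < ⟨j, hj'⟩ from not_lt_of_gt hj)] at hji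
    have hpi : (g i).p = Finsupp.single (e ⟨i, hi⟩) 1 := by rw [show g i = _ from hg ⟨i, hi⟩]
    have hpj : (g j).p = Finsupp.single (e ⟨j, hj'⟩) 1 := by rw [show g j = _ from hg ⟨j, hj'⟩]
    have hti : (g i).t = 0 := by rw [show g i = _ from hg ⟨i, hi⟩]
    have htj : (g j).t = 0 := by rw [show g j = _ from hg ⟨j, hj'⟩]
    apply Heis.ext
    · simp only [mul_p, cen_pow_p, zero_add, add_comm]
    · simp only [mul_q, cen_pow_q, zero_add, add_comm]
    · simp only [mul_t, cen_pow_p, cen_pow_t, dot_zero_left, hpi, hpj, dot_single, hti, htj]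
      rw [show (g j).q (e ⟨i, hi⟩) = _ from hij, show (g i).q (e ⟨j, hj'⟩) = _ from hji]
      ring
  set x0 := ((List.range n).map g).prod with hx0
  have hP : P (fun i : Fin n => g i) = {y | ∃ j < k, y = x0 * cen ^ j} := by
    ext y
    rw [mem_P_iff, products_iff cen_commute n hcomm, hw]
    constructor
    · rintro ⟨m, hm, rfl⟩
      exact ⟨m, hm, ((cen_commute x0).pow_left m).eq⟩
    · rintro ⟨m, hm, rfl⟩
      exact ⟨m, hm, ((cen_commute x0).pow_left m).eq.symm⟩
  refine ⟨fun i => g i, ?_, ⟨x0, hP⟩, ?_⟩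
  · intro i j hij
    have h3 : (g i).p = (g j).p := congrArg Heis.p hij
    rw [hg i, hg j] at h3
    have h4 := (Finsupp.single_left_inj (one_ne_zero : (1 : R) ≠ 0)).1 h3
    exact e.injective h4
  · rw [hP]
    have h5 : {y : Heis I R | ∃ j < k, y = x0 * cen ^ j} =
        (fun j : ℕ => x0 * cen ^ j) '' (Finset.range k : Set ℕ) := by
      ext y
      simp only [Set.mem_ofPred_eq, Set.mem_image, Finset.coe_range, Set.mem_Iio]
      exact ⟨fun ⟨j, hj, h⟩ => ⟨j, hj, h.symm⟩, fun ⟨j, hj, h⟩ => ⟨j, hj, h.symm⟩⟩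
    rw [h5, Set.InjOn.ncard_image, Set.ncard_coe_finset, Finset.card_range]
    intro a ha b hb hab
    have ha' : a < k := by simpa using ha
    have hb' : b < k := by simpa using hb
    have h6 : (cen : Heis I R) ^ a = cen ^ b := mul_left_cancel hab
    have h7 := congrArg Heis.t h6
    rw [cen_pow_t, cen_pow_t] at h7
    exact hR a b (by omega) (by omega) h7

end Heis

end Pool.Agent.KS6_21.PP
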