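import Pool.Agent.KS6_21.PP.Weights

set_option autoImplicit false

/-! Products of group elements in all orders. -/

namespace Pool.Agent.KS6_21.PP

open Nat

/-- The set of the products of `g 0, ..., g (n - 1)` in all orders. -/
def P {G : Type*} [Group G] {n : ℕ} (g : Fin n → G) : Set G :=
  {x | ∃ σ : Equiv.Perm (Fin n), x = (List.ofFn fun i => g (σ i)).prod}

section
variable {G : Type*} [Group G] {g : ℕ → G} {z : G} {w : ℕ → ℕ}

theorem move (hz : ∀ x, Commute z x) {n m : ℕ} (l : List ℕ)
    (h : ∀ j ∈ l, g n * g j = z ^ m * (g j * g n)) :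
    g n * (l.map g).prod = z ^ (m * l.length) * ((l.map g).prod * g n) := by
  induction l with
  | nil => simp
  | cons a l ih =>
    rw [List.map_cons, List.prod_cons, ← mul_assoc, h a (by simp), mul_assoc, mul_assoc,
      ih (fun j hj => h j (by simp [hj])), List.length_cons, mul_add_one, add_comm, pow_add,
      ← mul_assoc (g a), ← ((hz (g a)).pow_left _).eq]
    simp only [mul_assoc]

theorem products_iff (hz : ∀ x, Commute z x) (n : ℕ)
    (h : ∀ i < n, ∀ j < i, g i * g j = z ^ w i * (g j * g i)) (x : G) :
    (∃ l : List ℕ, l.Perm (List.range n) ∧ (l.map g).prod = x) ↔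
      ∃ m ∈ Sums w n, x = z ^ m * ((List.range n).map g).prod := by
  induction n generalizing x with
  | zero =>
    constructor
    · rintro ⟨l, h1, rfl⟩
      have : l = [] := by simpa using h1
      subst this
      exact ⟨0, rfl, by simp⟩
    · rintro ⟨m, hm, rfl⟩
      have : m = 0 := hm
      subst this
      exact ⟨[], by simp, by simp⟩
  | succ n ih =>
    have ih := ih (fun i hi => h i (by omega))
    have hmv : ∀ l1 l2 : List ℕ, (∀ j ∈ l2, j < n) →
        ((l1 ++ n :: l2).map g).prod = z ^ (l2.length * w n) * (((l1 ++ l2).map g).prod * g n) := by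
      intro l1 l2 hl
      rw [List.map_append, List.prod_append, List.map_cons, List.prod_cons,
        move hz l2 (fun j hj => h n n.lt_succ_self j (hl j hj)), ← mul_assoc,
        ← ((hz _).pow_left _).eq, mul_assoc, ← mul_assoc _ _ (g n), ← List.prod_append,
        ← List.map_append, mul_comm (w n)]
    constructor
    · rintro ⟨l, h1, rfl⟩
      have hn : n ∈ l := h1.mem_iff.2 (List.mem_range.2 n.lt_succ_self)
      obtain ⟨l1, l2, rfl⟩ := List.append_of_mem hn
      have h2 : (l1 ++ l2).Perm (List.range n) := by
        rw [List.range_succ] at h1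
        have h3 : (n :: (l1 ++ l2)).Perm (n :: List.range n) :=
          (List.perm_middle.symm.trans h1).trans (List.perm_append_singleton _ _)
        exact h3.cons_inv
      have hlen : l1.length + l2.length = n := by
        have := h2.length_eq
        simpa using this
      have h3 : ∀ j ∈ l2, j < n := fun j hj =>
        List.mem_range.1 (h2.mem_iff.1 (List.mem_append_right _ hj))
      obtain ⟨m, hm, he⟩ := (ih ((l1 ++ l2).map g).prod).1 ⟨_, h2, rfl⟩
      refine ⟨l2.length * w n + m, ⟨l2.length, by omega, m, hm, rfl⟩, ?_⟩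
      rw [hmv l1 l2 h3, he, List.range_succ, List.map_append, List.prod_append, pow_add]
      simp [mul_assoc]
    · rintro ⟨_, ⟨c, hc, m, hm, rfl⟩, rfl⟩
      obtain ⟨l, h1, h2⟩ := (ih _).2 ⟨m, hm, rfl⟩
      have hl : l.length = n := by simpa using h1.length_eq
      refine ⟨l.take (n - c) ++ n :: l.drop (n - c), ?_, ?_⟩
      · rw [List.range_succ]
        refine List.perm_middle.trans ?_
        rw [List.take_append_drop]
        exact (h1.cons n).trans (List.perm_append_singleton _ _).symm
      · rw [hmv _ _ (fun j hj => List.mem_range.1 (h1.subset (List.mem_of_mem_drop hj))),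
          List.take_append_drop, h2, List.length_drop, hl, Nat.sub_sub_self hc, List.range_succ,
          List.map_append, List.prod_append, pow_add]
        simp [mul_assoc]

theorem mem_P_iff (n : ℕ) (x : G) : x ∈ P (fun i : Fin n => g i) ↔
    ∃ l : List ℕ, l.Perm (List.range n) ∧ (l.map g).prod = x := by
  constructor
  · rintro ⟨σ, rfl⟩
    refine ⟨List.ofFn fun i => (σ i : ℕ), ?_, ?_⟩
    · have h1 : (List.ofFn fun i : Fin n => (σ i : ℕ)) = (List.ofFn fun i => σ i).map Fin.val := by
        rw [List.map_ofFn]; rfl
      have h2 : (List.ofFn fun i : Fin n => (σ i)).Perm (List.finRange n) := by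
        have := σ.map_finRange_perm
        rwa [List.ofFn_eq_map]
      rw [h1]
      have h3 := h2.map Fin.val
      rwa [List.map_coe_finRange_eq_range] at h3
    · rw [List.map_ofFn]
      rfl
  · rintro ⟨l, l1, rfl⟩
    have hl : l.length = n := by simpa using l1.length_eq
    let s : Fin n → Fin n := fun i => ⟨l[i], List.mem_range.1 (l1.subset (List.getElem_mem _))⟩
    have hs : Function.Injective s := fun i j h => Fin.ext
      ((l1.nodup_iff.2 List.nodup_range).getElem_inj_iff.1 (congrArg Fin.val h))
    refine ⟨Equiv.ofBijective s hs.bijective_of_finite, ?_⟩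
    have h3 : (List.ofFn fun i => g (Equiv.ofBijective s hs.bijective_of_finite i)) = l.map g :=
      List.ext_getElem (by simp [hl]) fun i _ _ => by simp [s]
    rw [← h3]

end

end Pool.Agent.KS6_21.PP
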