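import Mathlib

set_option autoImplicit false

/-! Weighted inversion sums: for all `1 ≤ k ≤ n!` there are weights whose sums are `0, ..., k-1`. -/

namespace Pool.Agent.KS6_21.PP

open Nat

/-- The sums `c 0 * w 0 + ... + c (n - 1) * w (n - 1)` with `c i ≤ i`. -/
def Sums (w : ℕ → ℕ) : ℕ → Set ℕ
  | 0 => {0}
  | n + 1 => {m | ∃ c ≤ n, ∃ s ∈ Sums w n, m = c * w n + s}

theorem sums_congr {w w' : ℕ → ℕ} {n : ℕ} (h : ∀ i < n, w i = w' i) : Sums w n = Sums w' n := by
  induction n with
  | zero => rfl
  | succ n ih => rw [Sums, Sums, ih fun i hi => h i (by omega), h n (by omega)]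

theorem exists_weights (n : ℕ) : ∀ g T : ℕ, 1 ≤ g → T ≤ g * (n.factorial - 1) → ∃ w : ℕ → ℕ,
    (∀ s ∈ Sums w n, s ≤ T) ∧ T ∈ Sums w n ∧ ∀ x ≤ T, ∃ s ∈ Sums w n, s ≤ x ∧ x < s + g := by
  induction n with
  | zero =>
    intro g T hg hT
    have h0 : T = 0 := by simpa using hT
    subst h0
    refine ⟨fun _ => 0, ?_, rfl, fun x hx => ⟨0, rfl, by omega, by omega⟩⟩
    intro s hs
    exact (Set.mem_singleton_iff.1 hs).le
  | succ n ih =>
    intro g T hg hT
    set v := min g (T / n) with hv
    have hvg : v ≤ g := min_le_left _ _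
    have hvT : n * v ≤ T := by
      rw [mul_comm]
      exact (Nat.mul_le_mul_right n (min_le_right _ _)).trans (Nat.div_mul_le_self T n)
    have hfac : 1 ≤ n.factorial := Nat.factorial_pos n
    have hT' : T - n * v ≤ (g + n * v) * (n.factorial - 1) := by
      rcases le_total g (T / n) with h | h
      · have h1 : v = g := min_eq_left h
        rw [h1, Nat.factorial_succ] at *
        obtain ⟨f, hf⟩ : ∃ f, n.factorial = f + 1 := ⟨n.factorial - 1, by omega⟩
        rw [hf] at hT ⊢
        have h2 : (n + 1) * (f + 1) - 1 = n * f + n + f := by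
          have : (n + 1) * (f + 1) = n * f + n + f + 1 := by ring
          omega
        rw [h2] at hT
        have h3 : f + 1 - 1 = f := by omega
        rw [h3]
        have h4 : (g + n * g) * f + n * g = g * (n * f + n + f) := by ring
        omega
      · have h1 : v = T / n := min_eq_right h
        rw [h1]
        rcases Nat.eq_zero_or_pos n with rfl | hn
        · simp at hT ⊢
          omega
        · have h2 : T - n * (T / n) = T % n := by
            have := Nat.div_add_mod T n
            omega
          rw [h2]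
          have h3 : T % n < n := Nat.mod_lt T hn
          have h4 : n ≤ n.factorial := Nat.self_le_factorial n
          calc T % n ≤ n.factorial - 1 := by omega
            _ = 1 * (n.factorial - 1) := (one_mul _).symm
            _ ≤ _ := Nat.mul_le_mul_right _ (by omega)
    obtain ⟨w, h1, h2, h3⟩ := ih (g + n * v) (T - n * v) (by omega) hT'
    have hS : Sums (Function.update w n v) (n + 1) = {m | ∃ c ≤ n, ∃ s ∈ Sums w n, m = c * v + s} := by
      rw [Sums, sums_congr (w' := w) fun i hi => Function.update_of_ne (by omega) _ _]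
      simp
    refine ⟨Function.update w n v, ?_, ?_, ?_⟩
    · rw [hS]
      rintro m ⟨c, hc, s, hs, rfl⟩
      have h4 := h1 s hs
      have h5 : c * v ≤ n * v := Nat.mul_le_mul_right v hc
      omega
    · rw [hS]
      exact ⟨n, le_rfl, _, h2, by omega⟩
    · rw [hS]
      -- the element after which we insert
      have key : ∀ s ∈ Sums w n, ∀ x, s ≤ x → x < s + (g + n * v) →
          ∃ m ∈ {m | ∃ c ≤ n, ∃ s ∈ Sums w n, m = c * v + s}, m ≤ x ∧ x < m + g := by
        intro s hs x hsx hx
        rcases Nat.eq_zero_or_pos v with h0 | h0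
        · exact ⟨s, ⟨0, Nat.zero_le _, s, hs, by simp⟩, hsx, by simpa [h0] using hx⟩
        · rcases le_total n ((x - s) / v) with h5 | h5
          · refine ⟨n * v + s, ⟨n, le_rfl, s, hs, rfl⟩, ?_, by omega⟩
            have h6 := (Nat.mul_le_mul_right v h5).trans (Nat.div_mul_le_self _ _)
            omega
          · refine ⟨(x - s) / v * v + s, ⟨_, h5, s, hs, rfl⟩, ?_, ?_⟩
            · have h6 := Nat.div_mul_le_self (x - s) v
              omega
            · have h6 := Nat.lt_div_mul_add h0 (a := x - s)
              omega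
      intro x hx
      rcases le_total x (T - n * v) with h4 | h4
      · obtain ⟨s, hs, h5, h6⟩ := h3 x h4
        exact key s hs x h5 h6
      · exact key _ h2 x h4 (by omega)

/-- For all `1 ≤ k ≤ n!` there are weights such that the sums are exactly `0, 1, ..., k - 1`. -/
theorem sums_eq (n k : ℕ) (h1 : 1 ≤ k) (h2 : k ≤ n.factorial) :
    ∃ w : ℕ → ℕ, Sums w n = {m | m < k} := by
  obtain ⟨w, h3, -, h4⟩ := exists_weights n 1 (k - 1) le_rfl (by omega)
  refine ⟨w, Set.ext fun m => ⟨fun h => ?_, fun h => ?_⟩⟩
  · have := h3 m h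
    show m < k
    omega
  · obtain ⟨s, hs, h5, h6⟩ := h4 m (by have : m < k := h; omega)
    rwa [show m = s by omega]

end Pool.Agent.KS6_21.PP
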